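import Pool.Agent.Helper53.UR.Time
import Pool.Agent.Helper81.UR.Res
import Pool.Agent.Helper31.OL.Hard

/-!
# Project UR (MP_c578c8_lc): the simulation of random access machines in unambiguous space
-/

set_option autoImplicit false

namespace Pool.Agent.Helper88.URE

open Pool.Agent.Helper65.LinSpace Pool.Agent.Helper78.Mpc
open Pool.Agent.Helper1.TE (USPACE)
open Pool.Agent.Helper81.RP (Ins AcceptsAt conf step lett)
open Pool.Agent.Helper81.RR (ld)
open Pool.Agent.Helper81.IC (Served)
open Pool.Agent.Helper81.Gen4 (Q UQ UQ_spec)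
open Pool.Agent.Helper92.KR (Coded)
open Pool.Agent.Helper53.UR (accU NFU accPm Qn)
open Pool.Agent.Helper81.UR (FnuOK WithinP coded_prg)
open Pool.Agent.Helper31.OL (OL orc ol_UQ)

/-! ### Programs which read the second word only -/

/-- The instruction which reads the second word instead of the input word. -/
def swi : Ins → Ins
  | .input i j => .advice i j
  | .advice i _ => .const i 0
  | x => x

/-- The program which reads the second word instead of the input word. -/
def swp (P : List Ins) : List Ins := P.map swi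

theorem get_swp (P : List Ins) (n : ℕ) : (swp P)[n]? = P[n]?.map swi := by
  unfold swp
  rw [List.getElem?_map]

theorem step_swp (P : List Ins) (u w : List Bool) : step (swp P) u w = step P w [] := by
  funext c
  unfold step
  rw [get_swp]
  cases h : P[c.1]? with
  | none => rfl
  | some x => cases x <;> simp [swi, lett]

theorem conf_swp (P : List Ins) (u w : List Bool) (t : ℕ) :
    conf (swp P) u w t = conf P w [] t := by
  unfold conf
  rw [step_swp]

theorem swi_accept (x : Ins) : swi x = .accept ↔ x = .accept := by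
  cases x <;> simp [swi]

theorem acc_swp (P : List Ins) (u w : List Bool) (t : ℕ) :
    AcceptsAt (swp P) u w t ↔ AcceptsAt P w [] t := by
  unfold AcceptsAt
  rw [conf_swp, get_swp]
  cases h : P[(conf P w [] t).1]? with
  | none => simp
  | some x => simp [swi_accept]

theorem ld_swp (P : List Ins) (c : ℕ × (ℕ → ℕ)) : ld (swp P) c = ld P c := by
  unfold ld
  rw [get_swp]
  cases h : P[c.1]? with
  | none => rfl
  | some x => cases x <;> rfl

/-- The program `P` accepts the word `w` at some time `t`, all numbers in the registers being less than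
`2 ^ s` up to this time and the numbers of the registers which are loaded less than `2 ^ b`, and its
loads are served by a cache of `k` lines of `B` registers, into which `x` lines are brought, where
`⌊log₂ m⌋ + 1 ≤ s` and, for `l = b + ⌊log₂ m⌋ + 1`, `x B s l ^ 4 ≤ C (m + 1) ^ 2` and
`k B s l ^ 4 ≤ C (m + 1)`. The time is not bounded, and the program stores without the cache. -/
def WithinS (P : List Ins) (C : ℝ) (m : ℕ) (w : List Bool) : Prop :=
  ∃ t s b B k x : ℕ, Nat.log 2 m + 1 ≤ s ∧ 0 < B ∧ 0 < k ∧ AcceptsAt P w [] t ∧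
    (∀ u ≤ t, ∀ i, (conf P w [] u).2 i < 2 ^ s) ∧
    (∀ u ≤ t, ∀ z, ld P (conf P w [] u) = some z → z < 2 ^ b) ∧ Served P w [] B k x t ∧
    (x : ℝ) * B * s * ((b : ℝ) + ((Nat.log 2 m : ℝ) + 1)) ^ 4 ≤ C * ((m : ℝ) + 1) ^ 2 ∧
    (k : ℝ) * B * s * ((b : ℝ) + ((Nat.log 2 m : ℝ) + 1)) ^ 4 ≤ C * ((m : ℝ) + 1)

theorem within_swp {P : List Ins} {C : ℝ} {m : ℕ} {w : List Bool} (h : WithinS P C m w) :
    WithinP (swp P) C (List.replicate m true) w := by
  obtain ⟨t, s, b, B, k, x, h1, h2, h3, h4, h5, h6, ⟨S, g1, g2, g3, g4⟩, h8, h9⟩ := h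
  have hm : (List.replicate m true).length = m := List.length_replicate
  refine ⟨t, s, b, B, k, x, ?_, h2, h3, (acc_swp P _ w t).2 h4, fun u hu i => ?_,
    fun u hu z hz => ?_, ⟨S, g1, g2, fun u hu z hz => ?_, g4⟩, ?_, ?_⟩
  · rwa [hm]
  · rw [conf_swp]
    exact h5 u hu i
  · rw [conf_swp, ld_swp] at hz
    exact h6 u hu z hz
  · rw [conf_swp, ld_swp] at hz
    exact g3 u hu z hz
  · rwa [hm]
  · rwa [hm]

/-! ### Words with a block of ones in front -/

/-- The number of leading ones of a word, from its number. -/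
def ldn (x : ℕ) : ℕ := ∑ i ∈ Finset.range (Nat.log 2 x), ifz ((x + 1) % 2 ^ (i + 1)) 1 0

theorem ls_ldn : LS ldn := by
  unfold ldn
  refine LS.sum_le (N := fun a => Nat.log 2 a) (B := fun _ => 1)
    (f := fun a i => ifz ((a + 1) % 2 ^ (i + 1)) 1 0) ?_ (by fun_prop) (by fun_prop) ?_
  · have h : LS (fun z : ℕ × ℕ => (z.1 + 1) % 2 ^ (z.2 + 1)) :=
      LS.modPow (q := fun _ => 2) (by fun_prop) (by fun_prop) (by fun_prop)
    exact LS.ifz h (by fun_prop) (by fun_prop)
  · intro a i _
    unfold ifz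
    split_ifs <;> omega

theorem num_pad (e : ℕ) (v : List Bool) :
    num (List.replicate e true ++ false :: v) + 1 = 2 ^ e * (2 * num v + 1) := by
  induction e with
  | zero =>
    have h2 : num (false :: v) = 2 * num v := by simp [num]
    simp [h2]
  | succ e ih =>
    have h2 : num (true :: (List.replicate e true ++ false :: v)) =
      1 + 2 * num (List.replicate e true ++ false :: v) := rfl
    rw [List.replicate_succ, List.cons_append, h2, pow_succ]
    have : 1 + 2 * num (List.replicate e true ++ false :: v) + 1 =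
      2 * (num (List.replicate e true ++ false :: v) + 1) := by ring
    rw [this, ih]
    ring

theorem ldn_pad (e : ℕ) (v : List Bool) :
    ldn (num (List.replicate e true ++ false :: v)) = e := by
  unfold ldn
  refine sum_lt_ind ?_ ?_
  · rw [log_num]
    simp
  · intro i _
    rw [num_pad]
    generalize num v = k
    by_cases h : i < e
    · rw [if_pos h]
      have : 2 ^ (i + 1) ∣ 2 ^ e * (2 * k + 1) := Dvd.dvd.mul_right (pow_dvd_pow 2 h) _
      rw [Nat.mod_eq_zero_of_dvd this]
      rfl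
    · rw [if_neg h]
      refine ifz_ne (fun h0 => ?_) _ _
      have h1 : 2 ^ (e + 1) ∣ 2 ^ e * (2 * k + 1) :=
        (pow_dvd_pow 2 (show e + 1 ≤ i + 1 by omega)).trans (Nat.dvd_of_mod_eq_zero h0)
      rw [pow_succ] at h1
      have h2 := Nat.dvd_of_mul_dvd_mul_left (by positivity) h1
      omega

theorem ldn_le (x : ℕ) : ldn x ≤ Nat.log 2 x := by
  unfold ldn
  refine (Finset.sum_le_sum (g := fun _ => 1) fun i _ => ?_).trans ?_
  · unfold ifz
    split_ifs <;> omega
  · simp

/-- `2 ^ e`, where `e` is the number of leading ones. -/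
def pwn (x : ℕ) : ℕ := 2 ^ ldn x

theorem ls_pwn : LS pwn := by
  unfold pwn
  refine LS.pow_of_le (f := fun _ => 2) (g := ldn) (C := fun x => x + 1) (by fun_prop) ls_ldn
    (by fun_prop) fun x => ?_
  rcases Nat.eq_zero_or_pos x with h | h
  · subst h
    simp [ldn]
  · exact (Nat.pow_le_pow_right (by norm_num) (ldn_le x)).trans
      ((Nat.pow_log_le_self 2 (by omega)).trans (by omega))

/-- The number of the block of ones. -/
def xn (x : ℕ) : ℕ := 2 * pwn x - 1

/-- The number of the rest. -/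
def yn (x : ℕ) : ℕ := ((x + 1) / pwn x - 1) / 2

theorem num_ones (e : ℕ) : num (List.replicate e true) = 2 * 2 ^ e - 1 := by
  induction e with
  | zero => rfl
  | succ e ih =>
    rw [List.replicate_succ]
    show (true : Bool).toNat + 2 * num (List.replicate e true) = _
    rw [ih, pow_succ]
    have : 0 < 2 ^ e := by positivity
    simp only [Bool.toNat_true]
    omega

theorem xn_pad (e : ℕ) (v : List Bool) :
    xn (num (List.replicate e true ++ false :: v)) = num (List.replicate e true) := by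
  unfold xn pwn
  rw [ldn_pad, num_ones]

theorem yn_pad (e : ℕ) (v : List Bool) :
    yn (num (List.replicate e true ++ false :: v)) = num v := by
  unfold yn pwn
  rw [ldn_pad, num_pad, Nat.mul_div_cancel_left _ (by positivity)]
  omega

theorem ls_xn : LS xn := by
  unfold xn
  exact LS.sub (LS.mul (LS.const 2) ls_pwn) (LS.const 1)

theorem ls_yn : LS yn := by
  unfold yn
  exact LS.div (LS.sub (LS.div (LS.add LS.id (LS.const 1)) ls_pwn) (LS.const 1)) (LS.const 2)

/-! ### The simulation -/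

/-- Languages which are computed by loops with the oracle `acc` are in unambiguous linear space. -/
def OrcOK (acc : ℕ → ℕ → ℕ → ℕ → ℕ) : Prop := ∀ F : ℕ → ℕ, OL (orc acc) F →
  {w | F (num w) ≠ 0} ∈ USPACE (fun n => (n : ℝ)) ∧
  {w | F (num w) ≠ 0}ᶜ ∈ USPACE (fun n => (n : ℝ))

/-- The answers with quantifiers, as a loop. -/
theorem ol_q {acc : ℕ → ℕ → ℕ → ℕ → ℕ} {N : ℕ → ℕ} (hN : LS N) (c e : ℕ) {X Y : ℕ → ℕ}
    (hX : LS X) (hY : LS Y) : OL (orc acc) (fun x => UQ acc N c e (Y x) (X x)) :=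
  OL.comp_ls (g := fun z : ℕ × ℕ × ℕ => UQ acc N c z.1 z.2.1 z.2.2)
    (f := fun x : ℕ => (e, Y x, X x)) (ol_UQ acc hN c) (LS.prodMk (LS.const e) (LS.prodMk hY hX))

/-- The simulation, with a block of ones as the input word. -/
theorem sim_pad {acc : ℕ → ℕ → ℕ → ℕ → ℕ} {N : ℕ → ℕ} (hO : OrcOK acc) (hN : LS N)
    {Acc Good : List Bool → List Bool → Prop}
    (hC : Coded acc N Acc Good) (c : ℕ) : ∃ (B : Set (List Bool)) (m₀ : ℕ),
      B ∈ USPACE (fun n => (n : ℝ)) ∧ Bᶜ ∈ USPACE (fun n => (n : ℝ)) ∧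
      ∀ m : ℕ, m₀ ≤ m → ∀ w : List Bool,
        (List.replicate m true ++ false :: w ∈ B →
          Q (c * m) fun v => Acc (List.replicate m true) (w ++ v)) ∧
        ((Q (c * m) fun v => Good (List.replicate m true) (w ++ v)) →
          List.replicate m true ++ false :: w ∈ B) := by
  obtain ⟨e, n₀, he⟩ := hC
  obtain ⟨h1, h2⟩ := hO _ (ol_q hN c e ls_xn ls_yn)
  refine ⟨_, n₀, h1, h2, fun m hm w => ?_⟩
  have hl : (List.replicate m true).length = m := List.length_replicate
  have h3 := UQ_spec (acc := acc) (N := N) c e (w := List.replicate m true) (a := w)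
    (Acc := fun v => Acc (List.replicate m true) (w ++ v))
    (Good := fun v => Good (List.replicate m true) (w ++ v))
    (fun y S hS hne => (he _ (w ++ y) (by rw [hl]; exact hm)).1 S hS hne)
    (fun y hy => (he _ (w ++ y) (by rw [hl]; exact hm)).2 hy)
  rw [hl] at h3
  constructor
  · intro hB
    have hB' : UQ acc N c e (yn (num (List.replicate m true ++ false :: w)))
      (xn (num (List.replicate m true ++ false :: w))) ≠ 0 := hB
    rw [xn_pad, yn_pad] at hB'
    exact h3.1 hB'
  · intro hQ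
    show UQ acc N c e (yn (num (List.replicate m true ++ false :: w)))
      (xn (num (List.replicate m true ++ false :: w))) ≠ 0
    rw [xn_pad, yn_pad]
    exact h3.2 hQ

/-- The simulation with quantifiers. -/
theorem sim_q {acc : ℕ → ℕ → ℕ → ℕ → ℕ} {N : ℕ → ℕ} (hO : OrcOK acc) (hN : LS N)
    {Acc Good : List Bool → List Bool → Prop}
    (hC : Coded acc N Acc Good) (c : ℕ) : ∃ (B : Set (List Bool)) (m₀ : ℕ),
      B ∈ USPACE (fun n => (n : ℝ)) ∧ Bᶜ ∈ USPACE (fun n => (n : ℝ)) ∧
      ∀ w : List Bool, m₀ ≤ w.length →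
        (w ∈ B → Q (c * w.length) (Acc w)) ∧ (Q (c * w.length) (Good w) → w ∈ B) := by
  obtain ⟨e, n₀, he⟩ := hC
  obtain ⟨h1, h2⟩ := hO _ (ol_q hN c e (X := fun x => x) (Y := fun _ => 1) LS.id (LS.const 1))
  refine ⟨_, n₀, h1, h2, fun w hw => ?_⟩
  exact UQ_spec (acc := acc) (N := N) c e (w := w) (a := [])
    (Acc := Acc w) (Good := Good w)
    (fun y S hS hne => (he w y hw).1 S hS hne) (fun y hy => (he w y hw).2 hy)

/-- **The simulation.** (1) For every program `P` and every `C` there is a language `B` which is in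
unambiguous linear space, as well as its complement, such that for all words `w` and all large `m`: if
`1 ^ m 0 w` is in `B`, then `P` accepts `w`, and this word is in `B` if `P` accepts `w` within the
bounds of `WithinS` for `m` (2) for example in at most `C m ^ 2 / log ^ 5 m` steps with numbers less than
`(m + 2) ^ a`. (3) For every `c` and every program there is such a language for the words which are
accepted with `Q (c n)` for the second word. -/
def Sim : Prop :=
  (∀ (P : List Ins) (C : ℝ), ∃ (B : Set (List Bool)) (m₀ : ℕ),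
    B ∈ USPACE (fun n => (n : ℝ)) ∧ Bᶜ ∈ USPACE (fun n => (n : ℝ)) ∧
    ∀ m : ℕ, m₀ ≤ m → ∀ w : List Bool,
      (List.replicate m true ++ false :: w ∈ B → ∃ t, AcceptsAt P w [] t) ∧
      (WithinS P C m w → List.replicate m true ++ false :: w ∈ B)) ∧
  (∀ (P : List Ins) (a : ℕ) (C : ℝ), ∃ (B : Set (List Bool)) (m₀ : ℕ),
    B ∈ USPACE (fun n => (n : ℝ)) ∧ Bᶜ ∈ USPACE (fun n => (n : ℝ)) ∧
    ∀ m : ℕ, m₀ ≤ m → ∀ w : List Bool,
      (List.replicate m true ++ false :: w ∈ B → ∃ t, AcceptsAt P w [] t) ∧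
      ((∃ t : ℕ, AcceptsAt P w [] t ∧ (∀ u ≤ t, ∀ i, (conf P w [] u).2 i < (m + 2) ^ a) ∧
          (t : ℝ) ≤ C * ((m : ℝ) + 1) ^ 2 / ((Nat.log 2 m : ℝ) + 1) ^ 5) →
        List.replicate m true ++ false :: w ∈ B)) ∧
  ∀ (P : List Ins) (C : ℝ) (c : ℕ), ∃ (B : Set (List Bool)) (m₀ : ℕ),
    B ∈ USPACE (fun n => (n : ℝ)) ∧ Bᶜ ∈ USPACE (fun n => (n : ℝ)) ∧
    ∀ w : List Bool, m₀ ≤ w.length →
      (w ∈ B → Q (c * w.length) fun v => ∃ t, AcceptsAt P w v t) ∧
      (Q (c * w.length) (fun v => WithinP P C w v) → w ∈ B)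

/-- `Q 0 f` is `f []`. -/
theorem q_zero (f : List Bool → Prop) : Q 0 f ↔ f [] := by
  classical
  show 2 ^ 0 < 2 * {u : List Bool | u.length = 0 ∧ f ([] ++ (u ++ []))}.ncard ↔ f []
  have h1 : {u : List Bool | u.length = 0 ∧ f ([] ++ (u ++ []))} =
      if f [] then {[]} else ∅ := by
    ext u
    by_cases h : f []
    · rw [if_pos h]
      simp only [Set.mem_ofPred_eq, Set.mem_singleton_iff, List.length_eq_zero_iff]
      constructor
      · exact fun h => h.1
      · rintro rfl
        exact ⟨rfl, h⟩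
    · rw [if_neg h]
      simp only [Set.mem_ofPred_eq, List.length_eq_zero_iff, Set.mem_empty_iff_false, iff_false]
      rintro ⟨rfl, h2⟩
      exact h h2
  rw [h1]
  by_cases h : f []
  · simp [h]
  · simp [h]

/-- **The simulation**, for every oracle which is able to answer the questions about programs. -/
theorem sim_orc {acc : ℕ → ℕ → ℕ → ℕ → ℕ} {N : ℕ → ℕ} (hO : OrcOK acc) (hN : LS N)
    (hP : ∀ (P : List Ins) (C : ℝ),
      Coded acc N (fun w y => ∃ t, AcceptsAt P w y t) (WithinP P C)) : Sim := by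
  have h1 : ∀ (P : List Ins) (C : ℝ), ∃ (B : Set (List Bool)) (m₀ : ℕ),
      B ∈ USPACE (fun n => (n : ℝ)) ∧ Bᶜ ∈ USPACE (fun n => (n : ℝ)) ∧
      ∀ m : ℕ, m₀ ≤ m → ∀ w : List Bool,
        (List.replicate m true ++ false :: w ∈ B → ∃ t, AcceptsAt P w [] t) ∧
        (WithinP (swp P) C (List.replicate m true) w →
          List.replicate m true ++ false :: w ∈ B) := by
    intro P C
    obtain ⟨B, m₀, g1, g2, g3⟩ := sim_pad hO hN (hP (swp P) C) 0
    refine ⟨B, m₀, g1, g2, fun m hm w => ?_⟩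
    obtain ⟨g4, g5⟩ := g3 m hm w
    rw [Nat.zero_mul, q_zero, List.append_nil] at g4 g5
    refine ⟨fun hB => ?_, g5⟩
    obtain ⟨t, ht⟩ := g4 hB
    exact ⟨t, (acc_swp P _ w t).1 ht⟩
  refine ⟨fun P C => ?_, fun P a C => ?_, fun P C c => ?_⟩
  · obtain ⟨B, m₀, g1, g2, g3⟩ := h1 P C
    exact ⟨B, m₀, g1, g2, fun m hm w => ⟨(g3 m hm w).1, fun hw => (g3 m hm w).2 (within_swp hw)⟩⟩
  · obtain ⟨C', hC'⟩ := Pool.Agent.Helper53.UR.within_time (swp P) a C
    obtain ⟨B, m₀, g1, g2, g3⟩ := h1 P C'
    refine ⟨B, m₀, g1, g2, fun m hm w => ⟨(g3 m hm w).1, fun ⟨t, ht, hn, hC⟩ => ?_⟩⟩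
    have hl : (List.replicate m true).length = m := List.length_replicate
    refine (g3 m hm w).2 (hC' _ _ t ((acc_swp P _ w t).2 ht) (fun u hu i => ?_) ?_)
    · rw [conf_swp, hl]
      exact hn u hu i
    · rw [hl]
      exact hC
  · exact sim_q hO hN (hP P C) c

/-- The conclusion of OLM. -/
def OlmOK : Prop := ∀ pm : Qn → Qn, LS pm → ∀ F : ℕ → ℕ, OL (accPm pm) F →
  {w | F (num w) ≠ 0} ∈ USPACE (fun n => (n : ℝ)) ∧
  {w | F (num w) ≠ 0}ᶜ ∈ USPACE (fun n => (n : ℝ))

theorem sim (hO : OlmOK) (hN : LS NFU) (h : FnuOK) : Sim :=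
  sim_orc (acc := accU) (fun F hF => hO id LS.id F hF) hN (coded_prg h)

end Pool.Agent.Helper88.URE
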