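import Pool.Agent.Helper53.UR.Reg
import Pool.Agent.Helper81.URE.Code
import Pool.Agent.Helper31.URE.Run

/-!
# Project UR (MP_c578c8_lc): universality of regular expressions, assembly
-/

set_option autoImplicit false

namespace Pool.Agent.Helper88.URE

open Pool.Agent.Helper65.LinSpace Pool.Agent.Helper78.Mpc
open Pool.Agent.Helper1.TE (USPACE NTM)
open Pool.Agent.Helper65.BR (BM Reader)
open Pool.Agent.Helper81.RP (Ins)
open Pool.Agent.Helper81.Gen4 (Q)
open Pool.Agent.Helper31.Gen5 (Hard)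
open Pool.Agent.Helper92.KR (Coded)
open Pool.Agent.Helper92.RE (enc Universal NonUniversal LD Loc half_of_hard finite_of_hard)
open Pool.Agent.Helper53.UR (HubOK RedOK accU NFU coded_prgF)
open Pool.Agent.Helper81.UR (FnuOK WithinP WithinR rdr_within coded_prg coded_rdr)
open Pool.Agent.Helper81.URE (HistIff RedNtm redNtm_of red_uspace)

theorem histIff : HistIff := by
  intro k M w o hR hn
  exact Pool.Agent.Helper31.URE.hist_iff hR hn

theorem redNtm : RedNtm := redNtm_of histIff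

/-- **The reduction.** -/
theorem redOK : RedOK := by
  intro L hL
  obtain ⟨f, b, D, -, h1, h2, h3, -⟩ := red_uspace redNtm hL
  exact ⟨f, h3, fun w => (h1 w).1, h2⟩

/-- Machines with reading heads on the words `F w`. -/
theorem coded_rdrF (h : FnuOK) {D : LD} {F : List Bool → List Bool} (hF : D.Is F) {b₀ : ℕ}
    (hlen : ∀ w, (F w).length ≤ b₀ * (w.length + 1)) (hle : ∀ w, w.length ≤ (F w).length)
    {K : ℕ} (A : Reader K) (C : ℝ) :
    Coded accU NFU (fun w y => ∃ t, A.AcceptsAt (F w) y t) (fun w y => WithinR A C (F w) y) := by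
  obtain ⟨M, C', hM, hC'⟩ := rdr_within hF hlen hle A C
  obtain ⟨e, n₀, he⟩ := h M C'
  refine ⟨e, n₀, fun w y hw => ⟨fun T hT hne => ?_, fun hw' => ?_⟩⟩
  · exact hM w y ((he w y hw).1 T hT hne)
  · exact (he w y hw).2 (hC' w y hw')

/-- **The theorem**, for programs and for machines with reading heads, on the words `w` and on the
regular expressions. -/
def MainRE : Prop := ∀ c : ℕ, 0 < c →
  ∃ (L : Set (List Bool)) (f : List Bool → RegularExpression Bool) (b : ℕ),
    L ∈ USPACE (fun n => (n : ℝ)) ∧ Lᶜ ∈ USPACE (fun n => (n : ℝ)) ∧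
    LinComp (fun w => enc (f w)) ∧
    (∀ w, w.length ≤ (enc (f w)).length ∧ (enc (f w)).length ≤ b * (w.length + 1)) ∧
    (∀ w, (f w).matches' = ⊤ ↔ w ∉ L) ∧
    (∃ c' : ℝ, ∀ n : ℕ, |({w : List Bool | w.length = n ∧ w ∈ L}.ncard : ℝ) - 2 ^ n / 2| ≤
      c' * 2 ^ ((n : ℝ) / 2)) ∧
    (∀ (P : List Ins) (C : ℝ),
      Hard L c (fun w α => ∃ t, Pool.Agent.Helper81.RP.AcceptsAt P w α t) (WithinP P C) ∧
      Hard L c (fun w α => Q (c * w.length) fun v =>
          ∃ t, Pool.Agent.Helper81.RP.AcceptsAt P w (α ++ v) t)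
        (fun w α => Q (c * w.length) fun v => WithinP P C w (α ++ v))) ∧
    (∀ (K : ℕ) (A : Reader K) (C : ℝ),
      Hard L c (fun w α => ∃ t, A.AcceptsAt w α t) (WithinR A C) ∧
      Hard L c (fun w α => Q (c * w.length) fun v => ∃ t, A.AcceptsAt w (α ++ v) t)
        (fun w α => Q (c * w.length) fun v => WithinR A C w (α ++ v))) ∧
    (∀ (P : List Ins) (C : ℝ),
      Hard L c (fun w α => ∃ t, Pool.Agent.Helper81.RP.AcceptsAt P (enc (f w)) α t)
        (fun w α => WithinP P C (enc (f w)) α) ∧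
      Hard L c (fun w α => Q (c * w.length) fun v =>
          ∃ t, Pool.Agent.Helper81.RP.AcceptsAt P (enc (f w)) (α ++ v) t)
        (fun w α => Q (c * w.length) fun v => WithinP P C (enc (f w)) (α ++ v))) ∧
    (∀ (K : ℕ) (A : Reader K) (C : ℝ),
      Hard L c (fun w α => ∃ t, A.AcceptsAt (enc (f w)) α t)
        (fun w α => WithinR A C (enc (f w)) α) ∧
      Hard L c (fun w α => Q (c * w.length) fun v => ∃ t, A.AcceptsAt (enc (f w)) (α ++ v) t)
        (fun w α => Q (c * w.length) fun v => WithinR A C (enc (f w)) (α ++ v))) ∧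
    ∀ U : Set (List Bool), U = Universal ∨ U = NonUniversal →
      (∀ (P : List Ins) (C : ℝ),
        (∀ x, (∃ t, Pool.Agent.Helper81.RP.AcceptsAt P x [] t) → x ∈ U) →
        {w | WithinP P C (enc (f w)) []}.Finite) ∧
      ∀ (K : ℕ) (A : Reader K) (C : ℝ), (∀ x, (∃ t, A.AcceptsAt x [] t) → x ∈ U) →
        {w | WithinR A C (enc (f w)) []}.Finite

theorem mainRE (hub : HubOK) (h : FnuOK) : MainRE := by
  intro c hc
  obtain ⟨L, h1, h2, h3⟩ := hub c hc
  obtain ⟨f, hloc, hle, hf⟩ := redOK L h1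
  obtain ⟨D, hD, b, hlen⟩ := hloc.exists_ld
  have hP := fun (P : List Ins) (C : ℝ) => h3 _ _ (coded_prgF h hD hlen hle P C)
  have hR := fun (K : ℕ) (A : Reader K) (C : ℝ) => h3 _ _ (coded_rdrF h hD hlen hle A C)
  refine ⟨L, f, b, h1, h2, hloc.linComp, fun w => ⟨hle w, hlen w⟩, hf, ?_,
    fun P C => h3 _ _ (coded_prg h P C), fun K A C => h3 _ _ (coded_rdr h A C), hP, hR,
    fun U hU => ⟨fun P C hA => finite_of_hard (hP P C).1 hf hU fun w hw => hA _ hw,
      fun K A C hA => finite_of_hard (hR K A C).1 hf hU fun w hw => hA _ hw⟩⟩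
  refine half_of_hard (c := c) ((hP [] 0).1.mono ?_ ?_)
  · rintro w α ⟨t, ht⟩
    have h1 : (none : Option Ins) = some .accept := ht
    exact absurd h1 (by simp)
  · exact fun w α h => h.elim

end Pool.Agent.Helper88.URE
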