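import Pool.Agent.Helper53.UR.Fin
import Pool.Agent.Helper88.URE.Sim

/-!
# Project UR (MP_c578c8_lc): the simulation, without hypotheses
-/

set_option autoImplicit false

namespace Pool.Agent.Helper88.URE

open Pool.Agent.Helper53.UR

theorem simU : Sim :=
  sim (Pool.Agent.Helper31.UR.gOLM @genOK Pool.Agent.Helper98.UR.gETB.2 parOK lsParOK
    (gTLS parOK lsParOK)) lsParOK.1 fnuOK

end Pool.Agent.Helper88.URE
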